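import Pool.Agent.Lib.MP_144d21_co.XU.H38.Cyccon

/-!
# MP_144d21_co, X2 (helper52): contracting an edge of a chordal `4`-colourable graph
-/

set_option autoImplicit false

namespace Pool.Agent.Xu.X2.H52

open Finset SimpleGraph Pool.Agent.Xu

/-- an admissible path of length `m` from a neighbour of `x` to `k`, inside `W` -/
def Pth {V : Type} (G : SimpleGraph V) (W : V → Prop) (x k : V) (m : ℕ) : Prop :=
  ∃ f : ℕ → V, (∀ i ≤ m, W (f i)) ∧ (∀ i < m, G.Adj (f i) (f (i + 1))) ∧ G.Adj x (f 0) ∧
    f m = k

theorem no_path {V : Type} [Fintype V] [DecidableEq V] {G : SimpleGraph V} {S : Finset V}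
    {x y : V} (hc : ChordalOn G S) (hx : x ∈ S) (hy : y ∈ S) (ha : G.Adj x y) (W : V → Prop)
    (hWS : ∀ v, W v → v ∈ S) (hWx : ∀ v, W v → v ≠ x) (hWy : ∀ v, W v → v ≠ y)
    (hWc : ∀ v, W v → ¬ (G.Adj x v ∧ G.Adj y v)) (m : ℕ) :
    ¬ ∃ k, Pth G W x k m ∧ G.Adj y k := by
  classical
  intro hm
  have hex : ∃ m, ∃ k, Pth G W x k m ∧ G.Adj y k := ⟨m, hm⟩
  obtain ⟨k, ⟨f, hfW, hfa, hf0, hfk⟩, hk⟩ := Nat.find_spec hex
  have hmin : ∀ l < Nat.find hex, ¬ ∃ k, Pth G W x k l ∧ G.Adj y k := fun l hl =>
    Nat.find_min hex hl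
  generalize Nat.find hex = M at *
  have hM : 1 ≤ M := by
    rcases Nat.eq_zero_or_pos M with h | h
    · subst h
      exact absurd ⟨hf0, by rw [hfk]; exact hk⟩ (hWc _ (hfW 0 le_rfl))
    · exact h
  -- x sees only f 0
  have h1 : ∀ i ≤ M, 0 < i → ¬ G.Adj x (f i) := by
    intro i hi h0 hxi
    apply hmin (M - i) (by omega)
    refine ⟨k, ⟨fun j => f (j + i), fun j hj => hfW _ (by omega), fun j hj => ?_, ?_, ?_⟩, hk⟩
    · have := hfa (j + i) (by omega)
      rwa [show j + i + 1 = j + 1 + i by omega] at this
    · simpa using hxi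
    · show f (M - i + i) = k
      rw [Nat.sub_add_cancel hi, hfk]
  have h2 : ∀ i < M, ¬ G.Adj y (f i) := by
    intro i hi hyi
    exact hmin i hi ⟨f i, ⟨f, fun j hj => hfW j (by omega), fun j hj => hfa j (by omega), hf0,
      rfl⟩, hyi⟩
  -- no shortcuts
  have h3 : ∀ i j, i < j → j ≤ M → f i ≠ f j := by
    intro i j hij hj he
    apply hmin (M - (j - i)) (by omega)
    refine ⟨k, ⟨fun l => if l ≤ i then f l else f (l + (j - i)), fun l hl => ?_, fun l hl => ?_,
      ?_, ?_⟩, hk⟩
    · dsimp only
      split_ifs with h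
      · exact hfW _ (by omega)
      · exact hfW _ (by omega)
    · dsimp only
      by_cases hl1 : l + 1 ≤ i
      · rw [if_pos (by omega), if_pos hl1]
        exact hfa l (by omega)
      · rw [if_neg hl1]
        by_cases hl2 : l ≤ i
        · have : l = i := by omega
          subst this
          rw [if_pos le_rfl, he, show l + 1 + (j - l) = j + 1 by omega]
          exact hfa j (by omega)
        · rw [if_neg hl2, show l + 1 + (j - i) = l + (j - i) + 1 by omega]
          exact hfa _ (by omega)
    · simpa using hf0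
    · dsimp only
      by_cases h : M - (j - i) ≤ i
      · have : j = M := by omega
        subst this
        rw [if_pos h, show j - (j - i) = i by omega, he, hfk]
      · rw [if_neg h, show M - (j - i) + (j - i) = M by omega, hfk]
  have h4 : ∀ i j, i + 1 < j → j ≤ M → ¬ G.Adj (f i) (f j) := by
    intro i j hij hj he
    apply hmin (M - (j - i - 1)) (by omega)
    refine ⟨k, ⟨fun l => if l ≤ i then f l else f (l + (j - i - 1)), fun l hl => ?_,
      fun l hl => ?_, ?_, ?_⟩, hk⟩
    · dsimp only
      split_ifs with h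
      · exact hfW _ (by omega)
      · exact hfW _ (by omega)
    · dsimp only
      by_cases hl1 : l + 1 ≤ i
      · rw [if_pos (by omega), if_pos hl1]
        exact hfa l (by omega)
      · rw [if_neg hl1]
        by_cases hl2 : l ≤ i
        · have : l = i := by omega
          subst this
          rw [if_pos le_rfl, show l + 1 + (j - l - 1) = j by omega]
          exact he
        · rw [if_neg hl2, show l + 1 + (j - i - 1) = l + (j - i - 1) + 1 by omega]
          exact hfa _ (by omega)
    · simpa using hf0
    · dsimp only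
      rw [if_neg (by omega), show M - (j - i - 1) + (j - i - 1) = M by omega, hfk]
  -- the induced cycle
  let g : Fin (M + 3) → V := fun i => if i.val ≤ M then f i.val else if i.val = M + 1 then y else x
  have hg : ∀ i j : Fin (M + 3), i.val < j.val → (G.Adj (g i) (g j) ↔
      (i.val + 1 = j.val ∨ (i.val = 0 ∧ j.val + 1 = M + 3))) ∧ g i ≠ g j := by
    intro i j hij
    have hj := j.isLt
    by_cases hjM : j.val ≤ M
    · have e1 : g i = f i.val := if_pos (by omega)
      have e2 : g j = f j.val := if_pos hjM
      rw [e1, e2]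
      refine ⟨⟨fun h => ?_, fun h => ?_⟩, h3 _ _ hij hjM⟩
      · by_contra hcon
        exact h4 i.val j.val (by omega) hjM h
      · have : i.val + 1 = j.val := by omega
        rw [← this]
        exact hfa _ (by omega)
    · by_cases hj1 : j.val = M + 1
      · have e1 : g i = f i.val := if_pos (by omega)
        have e2 : g j = y := by
          show (if j.val ≤ M then f j.val else if j.val = M + 1 then y else x) = y
          rw [if_neg hjM, if_pos hj1]
        rw [e1, e2]
        refine ⟨⟨fun h => ?_, fun h => ?_⟩, hWy _ (hfW _ (by omega))⟩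
        · by_contra hcon
          exact h2 i.val (by omega) h.symm
        · have : i.val = M := by omega
          rw [this, hfk]
          exact hk.symm
      · have e2 : g j = x := by
          show (if j.val ≤ M then f j.val else if j.val = M + 1 then y else x) = x
          rw [if_neg hjM, if_neg hj1]
        by_cases hiM : i.val ≤ M
        · have e1 : g i = f i.val := if_pos hiM
          rw [e1, e2]
          refine ⟨⟨fun h => ?_, fun h => ?_⟩, hWx _ (hfW _ hiM)⟩
          · by_contra hcon
            exact h1 i.val hiM (by omega) h.symm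
          · have : i.val = 0 := by omega
            rw [this]
            exact hf0.symm
        · have e1 : g i = y := by
            show (if i.val ≤ M then f i.val else if i.val = M + 1 then y else x) = y
            rw [if_neg hiM, if_pos (by omega)]
          rw [e1, e2]
          exact ⟨⟨fun _ => by omega, fun _ => ha.symm⟩, ha.symm.ne⟩
  have hinj : Function.Injective g := by
    intro i j h
    by_contra hne
    rcases Nat.lt_or_gt_of_ne (fun h' => hne (Fin.ext h')) with h' | h'
    · exact (hg i j h').2 h
    · exact (hg j i h').2 h.symm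
  let F : cycleGraph (M + 3) ↪g G :=
    { toFun := g
      inj' := hinj
      map_rel_iff' := by
        intro i j
        show G.Adj (g i) (g j) ↔ (cycleGraph (M + 3)).Adj i j
        rw [H38.cyc_adj (by omega)]
        rcases lt_trichotomy i.val j.val with h | h | h
        · rw [(hg i j h).1]
          omega
        · have : i = j := Fin.ext h
          subst this
          constructor
          · intro h; exact absurd rfl h.ne
          · intro h; omega
        · rw [G.adj_comm, (hg j i h).1]
          omega }
  obtain ⟨i, hi⟩ := hc (M + 3) (by omega) F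
  apply hi
  show g i ∈ S
  show (if i.val ≤ M then f i.val else if i.val = M + 1 then y else x) ∈ S
  split_ifs with h5 h6
  · exact hWS _ (hfW _ h5)
  · exact hy
  · exact hx

/-- contracting an edge of a chordal graph keeps it `4`-colourable -/
theorem chc {V : Type} [Fintype V] [DecidableEq V] {G : SimpleGraph V} {S : Finset V}
    {x y : V} (hc : ChordalOn G S) (hx : x ∈ S) (hy : y ∈ S) (ha : G.Adj x y) {q : ℕ}
    (h4 : (cols G S q).Nonempty) : (cols (con G x y) (S.erase x) q).Nonempty := by
  classical
  obtain ⟨c, hcc⟩ := h4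
  obtain ⟨c1, c2, c3⟩ := mem_cols.1 hcc
  let W : V → Prop := fun v => v ∈ S ∧ v ≠ x ∧ v ≠ y ∧ ¬ (G.Adj x v ∧ G.Adj y v)
  let K : V → Prop := fun v => ∃ m, Pth G W x v m
  have hKW : ∀ v, K v → W v := by
    rintro v ⟨m, f, hf, -, -, rfl⟩
    exact hf m le_rfl
  have hKy : ∀ v, K v → ¬ G.Adj y v := by
    rintro v ⟨m, hm⟩ hv
    exact no_path hc hx hy ha W (fun v h => h.1) (fun v h => h.2.1) (fun v h => h.2.2.1)
      (fun v h => h.2.2.2) m ⟨v, hm, hv⟩
  have hKx : ∀ v, W v → G.Adj x v → K v := by
    intro v hv hxv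
    exact ⟨0, fun _ => v, fun _ _ => hv, fun i hi => absurd hi (by omega), hxv, rfl⟩
  have hKc : ∀ u v, K u → W v → G.Adj u v → K v := by
    rintro u v ⟨m, f, hf, hfa, hf0, hfm⟩ hv huv
    refine ⟨m + 1, fun i => if i ≤ m then f i else v, fun i hi => ?_, fun i hi => ?_, ?_, ?_⟩
    · dsimp only
      split_ifs with h
      · exact hf i h
      · exact hv
    · dsimp only
      by_cases h : i + 1 ≤ m
      · rw [if_pos (by omega), if_pos h]
        exact hfa i (by omega)
      · have : i = m := by omega
        rw [if_neg h, if_pos (by omega), this, hfm]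
        exact huv
    · simpa using hf0
    · simp
  have hab : c x ≠ c y := c3 x hx y hy ha
  have hKyy : ¬ K y := fun h => (hKW y h).2.2.1 rfl
  have hcom : ∀ v, G.Adj x v → G.Adj y v → ¬ K v := fun v h1 h2 h => (hKW v h).2.2.2 ⟨h1, h2⟩
  let c' : V → ℕ := fun v => if v = x then 0 else if K v then Equiv.swap (c x) (c y) (c v) else c v
  have e1 : ∀ v, v ≠ x → K v → c' v = Equiv.swap (c x) (c y) (c v) := fun v h1 h2 => by
    show (if v = x then 0 else if K v then Equiv.swap (c x) (c y) (c v) else c v) = _
    rw [if_neg h1, if_pos h2]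
  have e2 : ∀ v, v ≠ x → ¬ K v → c' v = c v := fun v h1 h2 => by
    show (if v = x then 0 else if K v then Equiv.swap (c x) (c y) (c v) else c v) = _
    rw [if_neg h1, if_neg h2]
  -- common neighbours have other colours
  have hC : ∀ v ∈ S, G.Adj x v → G.Adj y v → Equiv.swap (c x) (c y) (c v) = c v := by
    intro v hv h1 h2
    exact Equiv.swap_apply_of_ne_of_ne (c3 x hx v hv h1).symm (c3 y hy v hv h2).symm
  -- the edges of G
  have key1 : ∀ u ∈ S, u ≠ x → ∀ v ∈ S, v ≠ x → G.Adj u v → K u → ¬ K v → c' u ≠ c' v := by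
    intro u hu hux v hv hvx huv hKu hKv he
    rw [e1 u hux hKu, e2 v hvx hKv] at he
    have hvW : ¬ W v := fun h => hKv (hKc u v hKu h huv)
    have hvy : v ≠ y := by
      rintro rfl
      exact hKy u hKu huv.symm
    have hcomv : G.Adj x v ∧ G.Adj y v := by
      by_contra h
      exact hvW ⟨hv, hvx, hvy, h⟩
    rw [← hC v hv hcomv.1 hcomv.2] at he
    exact c3 u hu v hv huv ((Equiv.swap (c x) (c y)).injective he)
  have key2 : ∀ u ∈ S, u ≠ x → ∀ v ∈ S, v ≠ x → G.Adj u v → c' u ≠ c' v := by
    intro u hu hux v hv hvx huv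
    by_cases hKu : K u
    · by_cases hKv : K v
      · rw [e1 u hux hKu, e1 v hvx hKv]
        intro he
        exact c3 u hu v hv huv ((Equiv.swap (c x) (c y)).injective he)
      · exact key1 u hu hux v hv hvx huv hKu hKv
    · by_cases hKv : K v
      · exact (key1 v hv hvx u hu hux huv.symm hKv hKu).symm
      · rw [e2 u hux hKu, e2 v hvx hKv]
        exact c3 u hu v hv huv
  -- the edges at the contracted vertex
  have key3 : ∀ v ∈ S, v ≠ x → v ≠ y → G.Adj x v → c' y ≠ c' v := by
    intro v hv hvx hvy hxv
    rw [e2 y ha.symm.ne hKyy]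
    by_cases hyv : G.Adj y v
    · rw [e2 v hvx (hcom v hxv hyv)]
      exact c3 y hy v hv hyv
    · have hvW : W v := ⟨hv, hvx, hvy, fun h => hyv h.2⟩
      rw [e1 v hvx (hKx v hvW hxv)]
      intro he
      have h2 : Equiv.swap (c x) (c y) (c x) = Equiv.swap (c x) (c y) (c v) := by
        rw [Equiv.swap_apply_left]
        exact he
      exact c3 x hx v hv hxv ((Equiv.swap (c x) (c y)).injective h2)
  refine ⟨c', mem_cols.2 ⟨fun v hv => ?_, fun v hv => ?_, fun u hu v hv huv => ?_⟩⟩
  · have hvx : v ≠ x := ne_of_mem_erase hv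
    have hvS : v ∈ S := mem_of_mem_erase hv
    by_cases hK : K v
    · rw [e1 v hvx hK]
      by_cases h1 : c v = c x
      · rw [h1, Equiv.swap_apply_left]
        exact c1 y hy
      · by_cases h2 : c v = c y
        · rw [h2, Equiv.swap_apply_right]
          exact c1 x hx
        · rw [Equiv.swap_apply_of_ne_of_ne h1 h2]
          exact c1 v hvS
    · rw [e2 v hvx hK]
      exact c1 v hvS
  · by_cases hvx : v = x
    · show (if v = x then 0 else if K v then Equiv.swap (c x) (c y) (c v) else c v) = 0
      rw [if_pos hvx]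
    · have hvS : v ∉ S := fun h => hv (mem_erase.2 ⟨hvx, h⟩)
      rw [e2 v hvx (fun h => hvS (hKW v h).1)]
      exact c2 v hvS
  · have hux : u ≠ x := ne_of_mem_erase hu
    have huS : u ∈ S := mem_of_mem_erase hu
    have hvx : v ≠ x := ne_of_mem_erase hv
    have hvS : v ∈ S := mem_of_mem_erase hv
    obtain ⟨hne, h | ⟨rfl, h⟩ | ⟨rfl, h⟩⟩ := huv
    · exact key2 u huS hux v hvS hvx h
    · exact key3 v hvS hvx (Ne.symm hne) h
    · exact (key3 u huS hux hne h).symm

end Pool.Agent.Xu.X2.H52
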