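import Pool.Agent.Lib.MP_144d21_co.X2.QDefs
import Pool.Agent.Lib.MP_144d21_co.X2.H44.Cut3all
import Pool.Agent.Lib.MP_144d21_co.X2.H52.Chc

/-!
# MP_144d21_co, X2 (helper52): a 2-cut whose two sides, with the pair added, are 4-colourable
-/

set_option autoImplicit false

namespace Pool.Agent.Xu.X2.H52

open Finset Pool.Agent.Xu Pool.Agent.Xu.X2

variable {V : Type} [Fintype V] [DecidableEq V]

/-- the data of a 2-cut -/
structure C2 (G : SimpleGraph V) (S1 S2 : Finset V) (x y : V) : Prop where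
  two : TwoConn G (S1 ∪ S2)
  int : S1 ∩ S2 = {x, y}
  xy : x ≠ y
  sep : Sep G S1 S2
  n1 : ¬ S1 ⊆ S2
  n2 : ¬ S2 ⊆ S1

namespace C2

variable {G : SimpleGraph V} {S1 S2 : Finset V} {x y : V}

theorem symm (h : C2 G S1 S2 x y) : C2 G S2 S1 x y :=
  ⟨by rw [union_comm]; exact h.two, by rw [inter_comm]; exact h.int, h.xy,
    fun a ha ha' b hb hb' hab => h.sep b hb hb' a ha ha' hab.symm, h.n2, h.n1⟩

theorem swap (h : C2 G S1 S2 x y) : C2 G S1 S2 y x :=
  ⟨h.two, by rw [h.int, pair_comm], h.xy.symm, h.sep, h.n1, h.n2⟩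

theorem mem (h : C2 G S1 S2 x y) : (x ∈ S1 ∧ x ∈ S2) ∧ y ∈ S1 ∧ y ∈ S2 := by
  have h1 : x ∈ S1 ∩ S2 := by rw [h.int]; simp
  have h2 : y ∈ S1 ∩ S2 := by rw [h.int]; simp
  exact ⟨mem_inter.1 h1, mem_inter.1 h2⟩

theorem lt (h : C2 G S1 S2 x y) : S1.card < (S1 ∪ S2).card := by
  apply card_lt_card
  refine ⟨subset_union_left, fun hs => h.n2 fun v hv => hs (mem_union_right _ hv)⟩

theorem card (h : C2 G S1 S2 x y) : S1.card + S2.card = (S1 ∪ S2).card + 2 := by
  have h1 := card_union_add_card_inter S1 S2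
  rw [h.int, card_pair h.xy] at h1
  omega

theorem side (h : C2 G S1 S2 x y) : TwoConn (add G x y) S1 :=
  H43.cutconn V G S1 S2 x y h.two h.int h.xy h.sep

theorem sepadd (h : C2 G S1 S2 x y) : Sep (add G x y) S1 S2 := by
  intro a ha ha' b hb hb' hab
  rcases hab with hab | ⟨_, ⟨rfl, rfl⟩ | ⟨rfl, rfl⟩⟩
  · exact h.sep a ha ha' b hb hb' hab
  · exact ha' h.mem.1.2
  · exact ha' h.mem.2.2

theorem clq (h : C2 G S1 S2 x y) : ∀ u ∈ S1 ∩ S2, ∀ v ∈ S1 ∩ S2, u ≠ v → (add G x y).Adj u v := by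
  intro u hu v hv huv
  rw [h.int, mem_insert, mem_singleton] at hu hv
  rcases hu with rfl | rfl <;> rcases hv with rfl | rfl
  · exact absurd rfl huv
  · exact Or.inr ⟨huv, Or.inl ⟨rfl, rfl⟩⟩
  · exact Or.inr ⟨huv, Or.inr ⟨rfl, rfl⟩⟩
  · exact absurd rfl huv

theorem glue (h : C2 G S1 S2 x y) : 12 * (cols (add G x y) (S1 ∪ S2) 4).card =
    (cols (add G x y) S1 4).card * (cols (add G x y) S2 4).card := by
  have h1 := iGlue V (add G x y) S1 S2 h.sepadd h.clq 4
  rw [h.int, card_pair h.xy] at h1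
  exact h1

theorem bet2 (h : C2 G S1 S2 x y) :
    bet G (S1 ∪ S2) = bet (add G x y) S1 * bet (add G x y) S2 :=
  iBetcut V G S1 S2 x y h.two h.int h.xy h.sep h.n1 h.n2

end C2

theorem bpos2 {G : SimpleGraph V} {S : Finset V} (h : TwoConn G S) : 0 < bet G S :=
  H44.bposAll V G S h

theorem casA {G : SimpleGraph V} {S1 S2 : Finset V} {x y : V} (h : C2 G S1 S2 x y)
    (h1 : (cols (add G x y) S1 4).Nonempty) (h2 : (cols (add G x y) S2 4).Nonempty)
    (hI : IHQ G (S1 ∪ S2)) : IQ G (S1 ∪ S2) := by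
  obtain ⟨i1, e1⟩ := hI (add G x y) S1 (Or.inl h.lt) h.side h1
  obtain ⟨i2, e2⟩ := hI (add G x y) S2 (Or.inl (by
    have := h.symm.lt
    rwa [union_comm S2 S1] at this)) (by
      have := h.swap.symm.side
      refine H44.two_congr ?_ this
      intro u _ v _ huv
      rcases huv with h' | ⟨h', h''⟩
      · exact Or.inl h'
      · exact Or.inr ⟨h', h''.symm⟩) h2
  have hb1 := bpos2 h.side
  have hb2 : 0 < bet (add G x y) S2 := by
    have h3 := bpos2 h.two
    rw [h.bet2] at h3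
    exact (pos_iff_pos_of_mul_pos h3).1 hb1
  have hg : (12 : ℤ) * ((cols (add G x y) (S1 ∪ S2) 4).card : ℤ) =
      ((cols (add G x y) S1 4).card : ℤ) * ((cols (add G x y) S2 4).card : ℤ) := by
    exact_mod_cast h.glue
  have hc := h.card
  have hp1 : (0 : ℤ) < ((cols (add G x y) S1 4).card : ℤ) := by
    exact_mod_cast h1.card_pos
  have hp2 : (0 : ℤ) < ((cols (add G x y) S2 4).card : ℤ) := by
    exact_mod_cast h2.card_pos
  have hpw : (2 : ℤ) ^ S1.card * 2 ^ S2.card = 4 * 2 ^ (S1 ∪ S2).card := by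
    rw [← pow_add, hc, pow_add]; ring
  unfold IQ
  rw [h.bet2]
  generalize hB1 : bet (add G x y) S1 = b1 at *
  generalize hB2 : bet (add G x y) S2 = b2 at *
  generalize hP1 : ((cols (add G x y) S1 4).card : ℤ) = p1 at *
  generalize hP2 : ((cols (add G x y) S2 4).card : ℤ) = p2 at *
  have hN1 : (0 : ℤ) < 2 ^ S1.card := by positivity
  have hN2 : (0 : ℤ) < 2 ^ S2.card := by positivity
  generalize hn1 : (2 : ℤ) ^ S1.card = N1 at *
  generalize hn2 : (2 : ℤ) ^ S2.card = N2 at *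
  have hprod : (3 * N1) * (3 * N2) ≤ (b1 * p1) * (b2 * p2) :=
    mul_le_mul i1 i2 (by positivity) (by positivity)
  have hbase : 3 * 2 ^ (S1 ∪ S2).card ≤
      b1 * b2 * ((cols (add G x y) (S1 ∪ S2) 4).card : ℤ) := by
    have e3 : (b1 * p1) * (b2 * p2) =
        12 * (b1 * b2 * ((cols (add G x y) (S1 ∪ S2) 4).card : ℤ)) := by
      have : (b1 * p1) * (b2 * p2) = b1 * b2 * (p1 * p2) := by ring
      rw [this, ← hg]; ring
    have e4 : (3 * N1) * (3 * N2) = 36 * 2 ^ (S1 ∪ S2).card := by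
      have : (3 * N1) * (3 * N2) = 9 * (N1 * N2) := by ring
      rw [this, hpw]; ring
    rw [e3, e4] at hprod
    linarith
  by_cases ha : G.Adj x y
  · have hcong : ∀ u v, (add G x y).Adj u v ↔ G.Adj u v := by
      intro u v
      constructor
      · rintro (h' | ⟨_, ⟨rfl, rfl⟩ | ⟨rfl, rfl⟩⟩)
        · exact h'
        · exact ha
        · exact ha.symm
      · exact Or.inl
    have hcols : cols G (S1 ∪ S2) 4 = cols (add G x y) (S1 ∪ S2) 4 :=
      cols_congr fun u _ v _ => (hcong u v).symm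
    have hGG : add G x y = G := by
      ext u v
      exact hcong u v
    rw [hcols]
    refine ⟨hbase, fun heq => ?_⟩
    have hp : (b1 * p1) * (b2 * p2) = (3 * N1) * (3 * N2) := by
      have : (b1 * p1) * (b2 * p2) = 12 * (b1 * b2 * ((cols (add G x y) (S1 ∪ S2) 4).card : ℤ)) := by
        have : (b1 * p1) * (b2 * p2) = b1 * b2 * (p1 * p2) := by ring
        rw [this, ← hg]; ring
      rw [this, heq]
      have : (3 * N1) * (3 * N2) = 9 * (N1 * N2) := by ring
      rw [this, hpw]; ring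
    have hq1 : b1 * p1 = 3 * N1 := by
      apply le_antisymm _ i1
      by_contra hcon
      rw [not_le] at hcon
      have h5 : (3 * N1) * (3 * N2) < (b1 * p1) * (b2 * p2) :=
        mul_lt_mul hcon i2 (by positivity) (by positivity)
      omega
    have hq2 : b2 * p2 = 3 * N2 := by
      apply le_antisymm _ i2
      by_contra hcon
      rw [not_le] at hcon
      have h5 : (3 * N1) * (3 * N2) < (b1 * p1) * (b2 * p2) :=
        mul_lt_mul' i1 hcon (by positivity) (by positivity)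
      omega
    have c1 := e1 hq1
    have c2 := e2 hq2
    rw [hGG] at c1 c2
    have hcl := h.clq
    rw [hGG] at hcl
    exact H87.chg V G S1 S2 h.sep hcl c1 c2
  · have hsp := H44.cols_split (S := S1 ∪ S2) 4 (mem_union_left _ h.mem.1.1)
      (mem_union_left _ h.mem.2.1) h.xy ha
    have hsp' : ((cols G (S1 ∪ S2) 4).card : ℤ) = ((cols (add G x y) (S1 ∪ S2) 4).card : ℤ) +
        ((cols (con G x y) ((S1 ∪ S2).erase x) 4).card : ℤ) := by
      exact_mod_cast hsp
    have hbb : 0 < b1 * b2 := mul_pos hb1 hb2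
    rw [hsp', mul_add]
    have hnn : (0 : ℤ) ≤ b1 * b2 * ((cols (con G x y) ((S1 ∪ S2).erase x) 4).card : ℤ) := by
      positivity
    refine ⟨by linarith, fun heq => ?_⟩
    exfalso
    have hz : b1 * b2 * ((cols (con G x y) ((S1 ∪ S2).erase x) 4).card : ℤ) = 0 := by linarith
    have hz' : (cols (con G x y) ((S1 ∪ S2).erase x) 4).card = 0 := by
      have := (mul_eq_zero.1 hz).resolve_left hbb.ne'
      exact_mod_cast this
    have heq' : b1 * b2 * ((cols (add G x y) (S1 ∪ S2) 4).card : ℤ) = 3 * 2 ^ (S1 ∪ S2).card := by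
      linarith
    have hp : (b1 * p1) * (b2 * p2) = (3 * N1) * (3 * N2) := by
      have : (b1 * p1) * (b2 * p2) = 12 * (b1 * b2 * ((cols (add G x y) (S1 ∪ S2) 4).card : ℤ)) := by
        have : (b1 * p1) * (b2 * p2) = b1 * b2 * (p1 * p2) := by ring
        rw [this, ← hg]; ring
      rw [this, heq']
      have : (3 * N1) * (3 * N2) = 9 * (N1 * N2) := by ring
      rw [this, hpw]; ring
    have hq1 : b1 * p1 = 3 * N1 := by
      apply le_antisymm _ i1
      by_contra hcon
      rw [not_le] at hcon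
      have h5 : (3 * N1) * (3 * N2) < (b1 * p1) * (b2 * p2) :=
        mul_lt_mul hcon i2 (by positivity) (by positivity)
      omega
    have hq2 : b2 * p2 = 3 * N2 := by
      apply le_antisymm _ i2
      by_contra hcon
      rw [not_le] at hcon
      have h5 : (3 * N1) * (3 * N2) < (b1 * p1) * (b2 * p2) :=
        mul_lt_mul' i1 hcon (by positivity) (by positivity)
      omega
    have hch := H87.chg V (add G x y) S1 S2 h.sepadd h.clq (e1 hq1) (e2 hq2)
    have hne : (cols (add G x y) (S1 ∪ S2) 4).Nonempty := by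
      rw [← card_pos]
      by_contra hcon
      have : (cols (add G x y) (S1 ∪ S2) 4).card = 0 := by omega
      rw [this] at hg
      have : p1 * p2 = 0 := by
        rw [← hg]; simp
      exact (mul_pos hp1 hp2).ne' this
    have hfin := chc hch (mem_union_left _ h.mem.1.1) (mem_union_left _ h.mem.2.1)
      (Or.inr ⟨h.xy, Or.inl ⟨rfl, rfl⟩⟩ : (add G x y).Adj x y) hne
    obtain ⟨c, hc'⟩ := hfin
    have : c ∈ cols (con G x y) ((S1 ∪ S2).erase x) 4 := by
      obtain ⟨k1, k2, k3⟩ := mem_cols.1 hc'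
      refine mem_cols.2 ⟨k1, k2, fun u hu v hv huv => k3 u hu v hv ?_⟩
      obtain ⟨hne', h' | ⟨h0, h'⟩ | ⟨h0, h'⟩⟩ := huv
      · exact ⟨hne', Or.inl (Or.inl h')⟩
      · exact ⟨hne', Or.inr (Or.inl ⟨h0, Or.inl h'⟩)⟩
      · exact ⟨hne', Or.inr (Or.inr ⟨h0, Or.inl h'⟩)⟩
    have h0 : cols (con G x y) ((S1 ∪ S2).erase x) 4 = ∅ := card_eq_zero.1 hz'
    rw [h0] at this
    exact absurd this (notMem_empty c)

end Pool.Agent.Xu.X2.H52
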