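import Pool.Agent.Lib.MP_144d21_co.X2.H52.CutB

/-!
# MP_144d21_co, X2 (helper52): module CUT2
-/

set_option autoImplicit false

namespace Pool.Agent.Xu.X2.H52

open Finset Pool.Agent.Xu Pool.Agent.Xu.X2

/-- a smallest bad side (helper25) -/
def BadS : Prop := ∀ (V : Type) [Fintype V] [DecidableEq V] (G : SimpleGraph V)
  (S1 S2 : Finset V) (x y : V), C2 G S1 S2 x y → cols (add G x y) S1 4 = ∅ →
  (cols G (S1 ∪ S2) 4).Nonempty → ∃ (S1' S2' : Finset V) (x' y' : V), C2 G S1' S2' x' y' ∧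
    S1' ∪ S2' = S1 ∪ S2 ∧ cols (add G x' y') S1' 4 = ∅ ∧ TwoConn G S1'

theorem casB' (hbad : BadS) {V : Type} [Fintype V] [DecidableEq V] {G : SimpleGraph V}
    {S1 S2 : Finset V} {x y : V} (h : C2 G S1 S2 x y) (hb : cols (add G x y) S1 4 = ∅)
    (h4 : (cols G (S1 ∪ S2) 4).Nonempty) (hI : IHQ G (S1 ∪ S2)) : IQ G (S1 ∪ S2) := by
  obtain ⟨T1, T2, u, v, hC, hU, he, ht⟩ := hbad V G S1 S2 x y h hb h4
  rw [← hU] at h4 hI ⊢
  have := casB hC he ht h4 hI
  exact ⟨this.le, fun heq => absurd heq this.ne'⟩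

theorem cut2 (hbad : BadS) : Cut2S := by
  intro V _ _ G S1 S2 x y h2 hi hxy hs hn1 hn2 h4 hI
  have h : C2 G S1 S2 x y := ⟨h2, hi, hxy, hs, hn1, hn2⟩
  by_cases c1 : (cols (add G x y) S1 4).Nonempty
  · by_cases c2 : (cols (add G x y) S2 4).Nonempty
    · exact casA h c1 c2 hI
    · rw [not_nonempty_iff_eq_empty] at c2
      have h5 := h.symm
      rw [union_comm] at h4 hI ⊢
      exact casB' hbad h5 c2 h4 hI
  · rw [not_nonempty_iff_eq_empty] at c1
    exact casB' hbad h c1 h4 hI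

end Pool.Agent.Xu.X2.H52
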