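import Pool.Agent.Lib.MP_144d21_co.X2.H52.Cut2
import Pool.Agent.Lib.MP_144d21_co.X2.H25.Bad
import Pool.Agent.Lib.MP_144d21_co.X2.H25.Fin

/-!
# MP_144d21_co, X2 (helper52, helper25): CUT2, IQ and Xu's conjecture for `k = 3`, no hypothesis
-/

set_option autoImplicit false

namespace Pool.Agent.Xu.X2.H52

open Finset Pool.Agent.Xu Pool.Agent.Xu.X2

theorem badS : BadS := fun _ _ _ _ _ _ _ _ h hb h4 => H25.bad h hb h4

/-- CUT2 -/
theorem cut2all : Cut2S := cut2 badS

/-- `3 * 2 ^ n ≤ beta * P(4)` for all 2-connected 4-colourable graphs, equality only for chordal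
graphs -/
theorem iqall : IqS := Fin3.iq' cut2all

/-- Xu's conjecture for `k = 3` -/
theorem xuall : XuS := Fin3.xu' cut2all

end Pool.Agent.Xu.X2.H52
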