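import Pool.Agent.Lib.MP_144d21_co.X2.H52.CutA
import Pool.Agent.Lib.MP_144d21_co.X2.H16.Bnn

/-!
# MP_144d21_co, X2 (helper52): the side of a 2-cut with the two vertices identified
-/

set_option autoImplicit false

namespace Pool.Agent.Xu.X2.H52

open Finset Pool.Agent.Xu Pool.Agent.Xu.X2

variable {V : Type} [Fintype V] [DecidableEq V]

theorem add_add (G : SimpleGraph V) (x y : V) : add (add G x y) x y = add G x y := by
  ext u v
  constructor
  · rintro (h | h)
    · exact h
    · exact Or.inr h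
  · exact Or.inl

theorem con_add_iff {G : SimpleGraph V} {x y a b : V} (ha : a ≠ x) (hb : b ≠ x) :
    (con (add G x y) x y).Adj a b ↔ (con G x y).Adj a b := by
  rw [con_adj, con_adj]
  simp only [add_adj]
  constructor
  · rintro ⟨hab, h4⟩
    refine ⟨hab, ?_⟩
    rcases h4 with (h4 | ⟨_, h4⟩) | ⟨h0, h4 | ⟨_, h4⟩⟩ | ⟨h0, h4 | ⟨_, h4⟩⟩
    · exact Or.inl h4
    · rcases h4 with h4 | h4
      · exact absurd h4.1 ha
      · exact absurd h4.2 hb
    · exact Or.inr (Or.inl ⟨h0, h4⟩)
    · rcases h4 with h4 | h4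
      · exact absurd (h0.trans h4.2.symm) hab
      · exact absurd h4.2 hb
    · exact Or.inr (Or.inr ⟨h0, h4⟩)
    · rcases h4 with h4 | h4
      · exact absurd (h0.trans h4.2.symm) hab.symm
      · exact absurd h4.2 ha
  · rintro ⟨hab, h4⟩
    exact ⟨hab, h4.imp (fun h => Or.inl h) (fun h => h.imp (fun h => ⟨h.1, Or.inl h.2⟩)
      (fun h => ⟨h.1, Or.inl h.2⟩))⟩

theorem bet_split {G : SimpleGraph V} {S : Finset V} {x y : V} (hx : x ∈ S) (hy : y ∈ S)
    (hxy : x ≠ y) (h : ¬ G.Adj x y) :
    bet (add G x y) S = bet G S + bet (con G x y) (S.erase x) := by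
  have h1 := bet_add G S x y hx hy hxy h
  have h2 : bet (con (add G x y) x y) (S.erase x) = bet (con G x y) (S.erase x) :=
    bet_congr fun a ha b hb => con_add_iff (mem_erase.1 ha).1 (mem_erase.1 hb).1
  rw [h2] at h1
  linarith

/-- contraction of a connected graph -/
theorem conn_con {G : SimpleGraph V} {R : Finset V} {x y : V} (hx : x ∈ R) (hy : y ∈ R)
    (hxy : x ≠ y) (h : Conn (add G x y) R) : Conn (con G x y) (R.erase x) := by
  refine ⟨⟨y, mem_erase.2 ⟨hxy.symm, hy⟩⟩, fun A hA h0 h1 => ?_⟩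
  have hxA : x ∉ A := fun h' => (mem_erase.1 (hA h')).1 rfl
  by_cases hyA : y ∈ A
  · obtain ⟨a, ha, b, hb, hbA, hab⟩ := h.2 (insert x A) (by
      intro t ht
      rcases mem_insert.1 ht with rfl | ht
      · exact hx
      · exact mem_of_mem_erase (hA ht)) ⟨x, mem_insert_self x A⟩ (by
        intro he
        apply h1
        rw [← he, erase_insert hxA])
    have hbx : b ≠ x := fun e => hbA (e ▸ mem_insert_self x A)
    have hbA' : b ∉ A := fun h' => hbA (mem_insert_of_mem h')
    have hby : b ≠ y := fun e => hbA' (e ▸ hyA)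
    have habG : G.Adj a b := by
      rcases hab with hab | ⟨_, ⟨_, rfl⟩ | ⟨_, rfl⟩⟩
      · exact hab
      · exact absurd rfl hby
      · exact absurd rfl hbx
    rcases mem_insert.1 ha with rfl | ha
    · exact ⟨y, hyA, b, mem_erase.2 ⟨hbx, hb⟩, hbA', hby.symm, Or.inr (Or.inl ⟨rfl, habG⟩)⟩
    · exact ⟨a, ha, b, mem_erase.2 ⟨hbx, hb⟩, hbA', habG.ne, Or.inl habG⟩
  · obtain ⟨a, ha, b, hb, hbA, hab⟩ := h.2 A (fun t ht => mem_of_mem_erase (hA ht)) h0 (by
        intro he
        exact hxA (he ▸ hx))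
    have hax : a ≠ x := fun e => hxA (e ▸ ha)
    have hay : a ≠ y := fun e => hyA (e ▸ ha)
    have habG : G.Adj a b := by
      rcases hab with hab | ⟨_, ⟨rfl, _⟩ | ⟨rfl, _⟩⟩
      · exact hab
      · exact absurd rfl hax
      · exact absurd rfl hay
    by_cases hbx : b = x
    · subst hbx
      exact ⟨a, ha, y, mem_erase.2 ⟨hxy.symm, hy⟩, hyA, hay, Or.inr (Or.inr ⟨rfl, habG.symm⟩)⟩
    · exact ⟨a, ha, b, mem_erase.2 ⟨hbx, hb⟩, hbA, habG.ne, Or.inl habG⟩

/-- a 2-connected graph on at least three vertices minus an edge is connected -/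
theorem conn_of_add {G : SimpleGraph V} {S : Finset V} {x y : V} (h3 : 3 ≤ S.card)
    (hx : x ∈ S) (hy : y ∈ S) (hxy : x ≠ y) (h : TwoConn (add G x y) S) : Conn G S := by
  have key : ∀ (u v : V), u ∈ S → v ∈ S → u ≠ v → (∀ a b, (add G x y).Adj a b → a ≠ u → b ≠ u →
      G.Adj a b) → (∀ a b, (add G x y).Adj a b → a ≠ v → b ≠ v → G.Adj a b) → ∀ A ⊆ S, u ∈ A →
      v ∉ A → ∃ a ∈ A, ∃ b ∈ S, b ∉ A ∧ G.Adj a b := by
    intro u v hu hv huv e1 e2 A hA huA hvA
    by_cases hne : (A.erase u).Nonempty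
    · obtain ⟨a, ha, b, hb, hbA, hab⟩ := (h.2.2 u hu).2 (A.erase u) (erase_subset_erase u hA) hne
        (fun he => hvA (mem_of_mem_erase (he ▸ mem_erase.2 ⟨huv.symm, hv⟩ : v ∈ A.erase u)))
      have hau := mem_erase.1 ha
      have hbu := mem_erase.1 hb
      exact ⟨a, hau.2, b, hbu.2, fun h' => hbA (mem_erase.2 ⟨hbu.1, h'⟩), e1 a b hab hau.1 hbu.1⟩
    · have hAu : A = {u} := by
        ext t
        rw [mem_singleton]
        constructor
        · intro ht
          by_contra hcon
          exact hne ⟨t, mem_erase.2 ⟨hcon, ht⟩⟩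
        · rintro rfl; exact huA
      have huv' : u ∈ S.erase v := mem_erase.2 ⟨huv, hu⟩
      obtain ⟨a, ha, b, hb, hbA, hab⟩ := (h.2.2 v hv).2 {u} (singleton_subset_iff.2 huv')
        ⟨u, mem_singleton_self u⟩ (by
          intro he
          have := card_erase_of_mem hv
          rw [← he, card_singleton] at this
          omega)
      rw [mem_singleton] at ha
      subst ha
      have hbv := mem_erase.1 hb
      refine ⟨a, huA, b, hbv.2, ?_, e2 a b hab huv hbv.1⟩
      rw [hAu]
      exact hbA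
  refine ⟨⟨x, hx⟩, fun A hA h0 h1 => ?_⟩
  obtain ⟨a, ha, b, hb, hbA, hab⟩ := h.2.1.2 A hA h0 h1
  rcases hab with hab | ⟨_, ⟨rfl, rfl⟩ | ⟨rfl, rfl⟩⟩
  · exact ⟨a, ha, b, hb, hbA, hab⟩
  · refine key a b hx hy hxy ?_ ?_ A hA ha hbA
    · rintro c d (h' | ⟨_, ⟨rfl, rfl⟩ | ⟨rfl, rfl⟩⟩) h1 h2
      · exact h'
      · exact absurd rfl h1
      · exact absurd rfl h2
    · rintro c d (h' | ⟨_, ⟨rfl, rfl⟩ | ⟨rfl, rfl⟩⟩) h1 h2
      · exact h'
      · exact absurd rfl h2
      · exact absurd rfl h1
  · refine key a b hy hx hxy.symm ?_ ?_ A hA ha hbA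
    · rintro c d (h' | ⟨_, ⟨rfl, rfl⟩ | ⟨rfl, rfl⟩⟩) h1 h2
      · exact h'
      · exact absurd rfl h2
      · exact absurd rfl h1
    · rintro c d (h' | ⟨_, ⟨rfl, rfl⟩ | ⟨rfl, rfl⟩⟩) h1 h2
      · exact h'
      · exact absurd rfl h1
      · exact absurd rfl h2

/-- gluing along the contracted vertex -/
theorem glue_con {G : SimpleGraph V} {S1 S2 : Finset V} {x y : V} (hxy : x ≠ y)
    (hi : S1 ∩ S2 = {x, y}) (hs : Sep G S1 S2) :
    4 * (cols (con G x y) ((S1 ∪ S2).erase x) 4).card =
      (cols (con G x y) (S1.erase x) 4).card * (cols (con G x y) (S2.erase x) 4).card := by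
  have hx : x ∈ S1 ∩ S2 := by rw [hi]; simp
  have hy : y ∈ S1 ∩ S2 := by rw [hi]; simp
  rw [mem_inter] at hx hy
  have e1 : (S1.erase x) ∪ (S2.erase x) = (S1 ∪ S2).erase x := by
    ext t; simp only [mem_union, mem_erase]; tauto
  have e2 : (S1.erase x) ∩ (S2.erase x) = {y} := by
    ext t
    rw [mem_inter, mem_erase, mem_erase, mem_singleton]
    constructor
    · rintro ⟨⟨h1, h2⟩, _, h3⟩
      have : t ∈ S1 ∩ S2 := mem_inter.2 ⟨h2, h3⟩
      rw [hi, mem_insert, mem_singleton] at this
      exact this.resolve_left h1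
    · rintro rfl
      exact ⟨⟨hxy.symm, hy.1⟩, hxy.symm, hy.2⟩
  have hsep : Sep (con G x y) (S1.erase x) (S2.erase x) := by
    intro a ha ha' b hb hb' hab
    rw [mem_erase] at ha hb
    have ha2 : a ∉ S2 := fun h' => ha' (mem_erase.2 ⟨ha.1, h'⟩)
    have hb1 : b ∉ S1 := fun h' => hb' (mem_erase.2 ⟨hb.1, h'⟩)
    obtain ⟨_, h | ⟨h0, _⟩ | ⟨h0, _⟩⟩ := hab
    · exact hs a ha.2 ha2 b hb.2 hb1 h
    · exact ha2 (h0 ▸ hy.2)
    · exact hb1 (h0 ▸ hy.1)
  have h1 := iGlue V (con G x y) (S1.erase x) (S2.erase x) hsep (by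
    intro u hu v hv huv
    rw [e2, mem_singleton] at hu hv
    exact absurd (hu.trans hv.symm) huv) 4
  rw [e2, card_singleton, e1] at h1
  exact h1

/-- the side with the two vertices identified -/
theorem sideL (N : ℕ) (hI : ∀ (G' : SimpleGraph V) (S' : Finset V), S'.card < N →
    TwoConn G' S' → (cols G' S' 4).Nonempty → IQ G' S') :
    ∀ (n : ℕ) (G : SimpleGraph V) (S : Finset V) (x y : V), S.card = n → n ≤ N → x ∈ S → y ∈ S →
      x ≠ y → ¬ G.Adj x y → TwoConn (add G x y) S → 3 ≤ S.card →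
      (cols (con G x y) (S.erase x) 4).Nonempty →
      3 * 2 ^ (S.card - 1) ≤ bet (add G x y) S *
        ((cols (con G x y) (S.erase x) 4).card : ℤ) := by
  intro n
  induction n using Nat.strong_induction_on with
  | _ n ih =>
    intro G S x y hn hnN hx hy hxy hna h2 h3 hq
    have hyx : y ∈ S.erase x := mem_erase.2 ⟨hxy.symm, hy⟩
    have hc1 : (S.erase x).card = S.card - 1 := card_erase_of_mem hx
    have hc2 : ((S.erase x).erase y).card = S.card - 2 := by
      rw [card_erase_of_mem hyx, hc1]; omega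
    by_cases hcon : Conn G ((S.erase x).erase y)
    · -- the interior is connected
      have htwo : TwoConn (con G x y) (S.erase x) := by
        refine ⟨by omega, conn_con hx hy hxy h2.2.1, fun v hv => ?_⟩
        by_cases hvy : v = y
        · subst hvy
          exact H44.conn_congr (fun a _ b _ hab => ⟨hab.ne, Or.inl hab⟩) hcon
        · have hvx := (mem_erase.1 hv).1
          have := conn_con (G := G) (R := S.erase v) (x := x) (y := y)
            (mem_erase.2 ⟨Ne.symm hvx, hx⟩) (mem_erase.2 ⟨Ne.symm hvy, hy⟩) hxy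
            (h2.2.2 v (mem_erase.1 hv).2)
          rwa [erase_right_comm] at this
      have hiq := (hI (con G x y) (S.erase x) (by omega) htwo hq).1
      rw [hc1] at hiq
      have hb := bet_split hx hy hxy hna
      have hnn : 0 ≤ bet G S := bnn V G S (conn_of_add h3 hx hy hxy h2) (by omega)
      have hp : (0 : ℤ) ≤ ((cols (con G x y) (S.erase x) 4).card : ℤ) := by positivity
      rw [hb]
      nlinarith [mul_nonneg hnn hp]
    · -- the interior splits
      have hne : ((S.erase x).erase y).Nonempty := by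
        rw [← card_pos]; omega
      unfold Conn at hcon
      push Not at hcon
      obtain ⟨A, hA, hA0, hA1, hA2⟩ := hcon hne
      set I := (S.erase x).erase y with hIdef
      have hxI : x ∉ I := fun h' => (mem_erase.1 (mem_erase.1 h').2).1 rfl
      have hyI : y ∉ I := fun h' => (mem_erase.1 h').1 rfl
      have hIS : ∀ t, t ∈ I ↔ t ∈ S ∧ t ≠ x ∧ t ≠ y := by
        intro t; rw [hIdef, mem_erase, mem_erase]; tauto
      have hxA : x ∉ A := fun h' => hxI (hA h')
      have hyA : y ∉ A := fun h' => hyI (hA h')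
      set T1 := insert x (insert y A) with hT1
      set T2 := insert x (insert y (I \ A)) with hT2
      have m1 : ∀ t, t ∈ T1 ↔ t = x ∨ t = y ∨ t ∈ A := by
        intro t; rw [hT1, mem_insert, mem_insert]
      have m2 : ∀ t, t ∈ T2 ↔ t = x ∨ t = y ∨ (t ∈ I ∧ t ∉ A) := by
        intro t; rw [hT2, mem_insert, mem_insert, mem_sdiff]
      have hU : T1 ∪ T2 = S := by
        ext t
        rw [mem_union, m1, m2]
        constructor
        · rintro ((rfl | rfl | h) | (rfl | rfl | h))
          · exact hx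
          · exact hy
          · exact ((hIS t).1 (hA h)).1
          · exact hx
          · exact hy
          · exact ((hIS t).1 h.1).1
        · intro h
          by_cases h1 : t = x
          · exact Or.inl (Or.inl h1)
          by_cases h2 : t = y
          · exact Or.inl (Or.inr (Or.inl h2))
          by_cases h3 : t ∈ A
          · exact Or.inl (Or.inr (Or.inr h3))
          · exact Or.inr (Or.inr (Or.inr ⟨(hIS t).2 ⟨h, h1, h2⟩, h3⟩))
      have hInt : T1 ∩ T2 = {x, y} := by
        ext t
        rw [mem_inter, m1, m2, mem_insert, mem_singleton]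
        tauto
      have hsepG : Sep G T1 T2 := by
        intro a ha ha' b hb hb' hab
        rw [m1] at ha hb'
        rw [m2] at ha' hb
        push Not at ha' hb'
        have haA : a ∈ A := by
          rcases ha with h | h | h
          · exact absurd h ha'.1
          · exact absurd h ha'.2.1
          · exact h
        have hbI : b ∈ I ∧ b ∉ A := by
          rcases hb with h | h | h
          · exact absurd h hb'.1
          · exact absurd h hb'.2.1
          · exact h
        exact hA2 a haA b hbI.1 hbI.2 hab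
      have hIA : (I \ A).Nonempty := by
        rw [sdiff_nonempty]
        exact fun h' => hA1 (subset_antisymm hA h')
      have hC : C2 (add G x y) T1 T2 x y := by
        refine ⟨by rw [hU]; exact h2, hInt, hxy, ?_, ?_, ?_⟩
        · intro a ha ha' b hb hb' hab
          rcases hab with hab | ⟨_, ⟨rfl, rfl⟩ | ⟨rfl, rfl⟩⟩
          · exact hsepG a ha ha' b hb hb' hab
          · exact ha' ((m2 _).2 (Or.inl rfl))
          · exact ha' ((m2 _).2 (Or.inr (Or.inl rfl)))
        · intro hsub
          obtain ⟨a, ha⟩ := hA0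
          have := (m2 a).1 (hsub ((m1 a).2 (Or.inr (Or.inr ha))))
          rcases this with h | h | h
          · exact hxA (h ▸ ha)
          · exact hyA (h ▸ ha)
          · exact h.2 ha
        · intro hsub
          obtain ⟨b, hb⟩ := hIA
          rw [mem_sdiff] at hb
          have := (m1 b).1 (hsub ((m2 b).2 (Or.inr (Or.inr hb))))
          rcases this with h | h | h
          · exact hxI (h ▸ hb.1)
          · exact hyI (h ▸ hb.1)
          · exact hb.2 h
      have hcd := hC.card
      rw [hU] at hcd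
      have hlt1 := hC.lt
      have hlt2 := hC.symm.lt
      rw [union_comm T2 T1, hU] at hlt2
      rw [hU] at hlt1
      have hbet := hC.bet2
      rw [hU, add_add] at hbet
      have hs1 := hC.side
      rw [add_add] at hs1
      have hs2 := hC.symm.side
      rw [add_add] at hs2
      have hg := glue_con hxy hInt hsepG
      rw [hU] at hg
      have hpos : 0 < (cols (con G x y) (T1.erase x) 4).card *
          (cols (con G x y) (T2.erase x) 4).card := by
        rw [← hg]
        have := hq.card_pos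
        omega
      have hp1 : (cols (con G x y) (T1.erase x) 4).Nonempty :=
        card_pos.1 (Nat.pos_of_mul_pos_right hpos)
      have hp2 : (cols (con G x y) (T2.erase x) 4).Nonempty :=
        card_pos.1 (Nat.pos_of_mul_pos_left hpos)
      have k1 := ih T1.card (by omega) G T1 x y rfl (by omega) ((m1 x).2 (Or.inl rfl))
        ((m1 y).2 (Or.inr (Or.inl rfl))) hxy hna hs1 (by omega) hp1
      have k2 := ih T2.card (by omega) G T2 x y rfl (by omega) ((m2 x).2 (Or.inl rfl))
        ((m2 y).2 (Or.inr (Or.inl rfl))) hxy hna hs2 (by omega) hp2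
      have hgz : (4 : ℤ) * ((cols (con G x y) (S.erase x) 4).card : ℤ) =
          ((cols (con G x y) (T1.erase x) 4).card : ℤ) *
          ((cols (con G x y) (T2.erase x) 4).card : ℤ) := by
        exact_mod_cast hg
      have hprod := mul_le_mul k1 k2 (by positivity) ((by positivity :
        (0 : ℤ) ≤ 3 * 2 ^ (T1.card - 1)).trans k1)
      rw [hbet]
      have e1 : bet (add G x y) T1 * ((cols (con G x y) (T1.erase x) 4).card : ℤ) *
          (bet (add G x y) T2 * ((cols (con G x y) (T2.erase x) 4).card : ℤ)) =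
          4 * (bet (add G x y) T1 * bet (add G x y) T2 *
            ((cols (con G x y) (S.erase x) 4).card : ℤ)) := by
        have : bet (add G x y) T1 * ((cols (con G x y) (T1.erase x) 4).card : ℤ) *
          (bet (add G x y) T2 * ((cols (con G x y) (T2.erase x) 4).card : ℤ)) =
          bet (add G x y) T1 * bet (add G x y) T2 * (((cols (con G x y) (T1.erase x) 4).card : ℤ) *
          ((cols (con G x y) (T2.erase x) 4).card : ℤ)) := by ring
        rw [this, ← hgz]; ring
      have e2 : (3 * (2 : ℤ) ^ (T1.card - 1)) * (3 * 2 ^ (T2.card - 1)) =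
          18 * 2 ^ (S.card - 1) := by
        have : (2 : ℤ) ^ (T1.card - 1) * 2 ^ (T2.card - 1) = 2 * 2 ^ (S.card - 1) := by
          rw [← pow_add, ← pow_succ']
          congr 1
          omega
        linear_combination 9 * this
      rw [e1, e2] at hprod
      have h0 : (0 : ℤ) < 2 ^ (S.card - 1) := by positivity
      linarith

/-- a 2-cut with a 2-connected side where `x`, `y` are forced equal -/
theorem casB {G : SimpleGraph V} {S1 S2 : Finset V} {x y : V} (h : C2 G S1 S2 x y)
    (hb : cols (add G x y) S1 4 = ∅) (ht : TwoConn G S1)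
    (h4 : (cols G (S1 ∪ S2) 4).Nonempty) (hI : IHQ G (S1 ∪ S2)) :
    3 * 2 ^ (S1 ∪ S2).card < bet G (S1 ∪ S2) * ((cols G (S1 ∪ S2) 4).card : ℤ) := by
  obtain ⟨⟨hx1, hx2⟩, hy1, hy2⟩ := h.mem
  have hxy := h.xy
  obtain ⟨c, hc⟩ := h4
  have hr1 := H44.restr hc (subset_union_left : S1 ⊆ S1 ∪ S2)
  have hceq : c x = c y := by
    by_contra hne
    have : (fun v => if v ∈ S1 then c v else 0) ∈ cols (add G x y) S1 4 := by
      rw [H44.mem_cols_add hx1 hy1 hxy]
      refine ⟨hr1, ?_⟩
      simp only [if_pos hx1, if_pos hy1]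
      exact hne
    rw [hb] at this
    exact absurd this (notMem_empty _)
  have hna : ¬ G.Adj x y := fun ha =>
    (mem_cols.1 hc).2.2 x (mem_union_left _ hx1) y (mem_union_left _ hy1) ha hceq
  -- the colourings of G[S1]
  have hsp1 := H44.cols_split 4 hx1 hy1 hxy hna
  rw [hb, card_empty, zero_add] at hsp1
  -- the colourings of G
  have hemp : cols (add G x y) (S1 ∪ S2) 4 = ∅ := by
    rw [eq_empty_iff_forall_notMem]
    intro d hd
    have := H44.restr hd (subset_union_left : S1 ⊆ S1 ∪ S2)
    rw [hb] at this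
    exact absurd this (notMem_empty _)
  have hsp := H44.cols_split (S := S1 ∪ S2) 4 (mem_union_left _ hx1) (mem_union_left _ hy1) hxy hna
  rw [hemp, card_empty, zero_add] at hsp
  have hg := glue_con hxy h.int h.sep
  have hposP : 0 < (cols G (S1 ∪ S2) 4).card := card_pos.2 ⟨c, hc⟩
  have hpos : 0 < (cols (con G x y) (S1.erase x) 4).card *
      (cols (con G x y) (S2.erase x) 4).card := by
    rw [← hg, ← hsp]; omega
  have hp1 : (cols (con G x y) (S1.erase x) 4).Nonempty :=
    card_pos.1 (Nat.pos_of_mul_pos_right hpos)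
  have hp2 : (cols (con G x y) (S2.erase x) 4).Nonempty :=
    card_pos.1 (Nat.pos_of_mul_pos_left hpos)
  have hlt1 := h.lt
  have hlt2 := h.symm.lt
  rw [union_comm S2 S1] at hlt2
  have hcd := h.card
  have iq1 := (hI G S1 (Or.inl hlt1) ht ⟨_, hr1⟩).1
  have hs1 := h.side
  have hs2 : TwoConn (add G x y) S2 := by
    have := h.swap.symm.side
    refine H44.two_congr ?_ this
    intro u _ v _ huv
    rcases huv with h' | ⟨h', h''⟩
    · exact Or.inl h'
    · exact Or.inr ⟨h', h''.symm⟩
  have iq2 := sideL (V := V) (S1 ∪ S2).card (fun G' S' hlt htt hcc => hI G' S' (Or.inl hlt) htt hcc)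
    S2.card G S2 x y rfl hlt2.le hx2 hy2 hxy hna hs2 (by omega) hp2
  have hbs := bet_split hx1 hy1 hxy hna
  have hnn : 0 ≤ bet (con G x y) (S1.erase x) := by
    refine bnn V _ _ (conn_con hx1 hy1 hxy hs1.2.1) ?_
    rw [card_erase_of_mem hx1]; omega
  rw [hsp1] at iq1
  have hge : 3 * 2 ^ S1.card ≤ bet (add G x y) S1 *
      ((cols (con G x y) (S1.erase x) 4).card : ℤ) := by
    rw [hbs]
    have : (0 : ℤ) ≤ ((cols (con G x y) (S1.erase x) 4).card : ℤ) := by positivity
    nlinarith [mul_nonneg hnn this]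
  have hgz : (4 : ℤ) * ((cols G (S1 ∪ S2) 4).card : ℤ) =
      ((cols (con G x y) (S1.erase x) 4).card : ℤ) *
      ((cols (con G x y) (S2.erase x) 4).card : ℤ) := by
    rw [hsp]
    exact_mod_cast hg
  have hprod := mul_le_mul hge iq2 (by positivity) ((by positivity :
        (0 : ℤ) ≤ 3 * 2 ^ S1.card).trans hge)
  rw [h.bet2]
  have e1 : bet (add G x y) S1 * ((cols (con G x y) (S1.erase x) 4).card : ℤ) *
      (bet (add G x y) S2 * ((cols (con G x y) (S2.erase x) 4).card : ℤ)) =
      4 * (bet (add G x y) S1 * bet (add G x y) S2 * ((cols G (S1 ∪ S2) 4).card : ℤ)) := by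
    have : bet (add G x y) S1 * ((cols (con G x y) (S1.erase x) 4).card : ℤ) *
      (bet (add G x y) S2 * ((cols (con G x y) (S2.erase x) 4).card : ℤ)) =
      bet (add G x y) S1 * bet (add G x y) S2 * (((cols (con G x y) (S1.erase x) 4).card : ℤ) *
      ((cols (con G x y) (S2.erase x) 4).card : ℤ)) := by ring
    rw [this, ← hgz]; ring
  have e2 : (3 * (2 : ℤ) ^ S1.card) * (3 * 2 ^ (S2.card - 1)) = 18 * 2 ^ (S1 ∪ S2).card := by
    have : (2 : ℤ) ^ S1.card * 2 ^ (S2.card - 1) = 2 * 2 ^ (S1 ∪ S2).card := by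
      rw [← pow_add, ← pow_succ']
      congr 1
      omega
    linear_combination 9 * this
  rw [e1, e2] at hprod
  have h0 : (0 : ℤ) < 2 ^ (S1 ∪ S2).card := by positivity
  linarith

end Pool.Agent.Xu.X2.H52
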